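import Pool.Agent.helper8.GD.Spec

/-!
# gd:N1, `Gs` is nearly linear in `log x`
-/

set_option autoImplicit false

namespace GD

open Finset ArithmeticFunction

noncomputable def N1_h (l : ℕ) : ℝ := 2 / ((l : ℝ) - 2)

lemma N1_Q7 {w : ℕ} {z : ℝ} (hw : 2 ≤ w) {l : ℕ} (hl : l ∈ Qs w z) : 7 ≤ l := by
  unfold Qs at hl
  rw [mem_filter] at hl
  obtain ⟨-, -, h1, h2⟩ := hl
  omega

lemma N1_h_pos {l : ℕ} (h : 7 ≤ l) : 0 < N1_h l := by
  have h7 : (7 : ℝ) ≤ l := by exact_mod_cast h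
  unfold N1_h
  apply div_pos (by norm_num)
  linarith

lemma N1_pr_pos {Q : Finset ℕ} (hQ : ∀ l ∈ Q, 7 ≤ l) {K : Finset ℕ} (hK : K ⊆ Q) : 1 ≤ pr K := by
  unfold pr
  apply Nat.one_le_iff_ne_zero.mpr
  rw [Finset.prod_ne_zero_iff]
  intro l hl h0
  have := hQ l (hK hl)
  omega

lemma N1_hh_pos {Q : Finset ℕ} (hQ : ∀ l ∈ Q, 7 ≤ l) {K : Finset ℕ} (hK : K ⊆ Q) : 0 < hh K := by
  unfold hh
  apply Finset.prod_pos
  intro l hl
  exact N1_h_pos (hQ l (hK hl))

lemma N1_Sub_sub {Q : Finset ℕ} {x : ℝ} {K : Finset ℕ} (hK : K ∈ Sub Q x) : K ⊆ Q := by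
  unfold Sub at hK
  exact mem_powerset.mp (mem_filter.mp hK).1

/-- removing an element -/
lemma N1_EX {Q : Finset ℕ} (hQ : ∀ l ∈ Q, 7 ≤ l) (x : ℝ) (l : ℕ) (hl : l ∈ Q) :
    ∑ K ∈ (Sub Q x).filter (fun K => l ∈ K), hh K =
      N1_h l * ∑ K ∈ (Sub Q x).filter (fun K => l ∉ K ∧ (l : ℝ) * pr K ≤ x), hh K := by
  classical
  rw [Finset.mul_sum]
  refine Finset.sum_bij' (fun K _ => K.erase l) (fun K _ => insert l K) ?_ ?_ ?_ ?_ ?_
  · intro K hK
    rw [mem_filter] at hK
    obtain ⟨hK1, hlK⟩ := hK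
    have hKQ := N1_Sub_sub hK1
    have hprod : (l : ℝ) * pr (K.erase l) = pr K := by
      have : l * pr (K.erase l) = pr K := by
        unfold pr
        exact Finset.mul_prod_erase K (fun a => a) hlK
      exact_mod_cast this
    have hx : (pr K : ℝ) ≤ x := by
      unfold Sub at hK1
      exact (mem_filter.mp hK1).2
    have h1 : 1 ≤ (l : ℝ) := by
      have := hQ l hl
      exact_mod_cast (le_trans (by norm_num) this)
    have hp : (0 : ℝ) ≤ pr (K.erase l) := Nat.cast_nonneg _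
    rw [mem_filter]
    refine ⟨?_, Finset.notMem_erase l K, ?_⟩
    · unfold Sub
      rw [mem_filter, mem_powerset]
      refine ⟨(Finset.erase_subset _ _).trans hKQ, ?_⟩
      nlinarith
    · rw [hprod]; exact hx
  · intro K hK
    rw [mem_filter] at hK
    obtain ⟨hK1, hlK, hx⟩ := hK
    have hKQ := N1_Sub_sub hK1
    rw [mem_filter]
    refine ⟨?_, Finset.mem_insert_self l K⟩
    unfold Sub
    rw [mem_filter, mem_powerset]
    refine ⟨Finset.insert_subset hl hKQ, ?_⟩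
    have : pr (insert l K) = l * pr K := by
      unfold pr
      exact Finset.prod_insert hlK
    rw [this]
    push_cast
    exact hx
  · intro K hK
    rw [mem_filter] at hK
    exact Finset.insert_erase hK.2
  · intro K hK
    rw [mem_filter] at hK
    exact Finset.erase_insert hK.2.1
  · intro K hK
    rw [mem_filter] at hK
    unfold hh N1_h
    exact (Finset.mul_prod_erase K (fun a : ℕ => 2 / ((a : ℝ) - 2)) hK.2).symm

/-- `∑_{K} hh K log (pr K)` -/
lemma N1_logsum {Q : Finset ℕ} (hQ : ∀ l ∈ Q, 7 ≤ l) (x : ℝ) :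
    ∑ K ∈ Sub Q x, hh K * Real.log (pr K) =
      ∑ K ∈ Sub Q x, hh K * ∑ l ∈ Q.filter (fun l : ℕ => (l : ℝ) * pr K ≤ x), N1_h l * Real.log l -
      ∑ K ∈ Sub Q x, hh K * ∑ l ∈ Q.filter (fun l : ℕ => l ∈ K ∧ (l : ℝ) * pr K ≤ x), N1_h l * Real.log l := by
  classical
  have h1 : ∀ K ∈ Sub Q x, hh K * Real.log (pr K) = ∑ l ∈ Q, if l ∈ K then hh K * Real.log l else 0 := by
    intro K hK
    have hKQ := N1_Sub_sub hK
    have e1 : Real.log (pr K) = ∑ l ∈ K, Real.log l := by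
      unfold pr
      push_cast
      rw [Real.log_prod]
      intro l hl
      have := hQ l (hKQ hl)
      have : (7 : ℝ) ≤ l := by exact_mod_cast this
      positivity
    rw [e1, Finset.mul_sum, ← Finset.sum_filter]
    apply Finset.sum_congr _ (fun _ _ => rfl)
    ext l
    simp only [mem_filter]
    exact ⟨fun h => ⟨hKQ h, h⟩, fun h => h.2⟩
  rw [Finset.sum_congr rfl h1, Finset.sum_comm]
  have h2 : ∀ l ∈ Q, ∑ K ∈ Sub Q x, (if l ∈ K then hh K * Real.log l else 0) =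
      ∑ K ∈ Sub Q x, (if l ∉ K ∧ (l : ℝ) * pr K ≤ x then hh K * (N1_h l * Real.log l) else 0) := by
    intro l hl
    rw [← Finset.sum_filter, ← Finset.sum_filter, ← Finset.sum_mul, N1_EX hQ x l hl, ← Finset.sum_mul]
    ring
  rw [Finset.sum_congr rfl h2, Finset.sum_comm, ← Finset.sum_sub_distrib]
  apply Finset.sum_congr rfl
  intro K hK
  rw [Finset.mul_sum, Finset.mul_sum, Finset.sum_filter, Finset.sum_filter, ← Finset.sum_sub_distrib]
  apply Finset.sum_congr rfl
  intro l _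
  by_cases a : l ∈ K <;> by_cases b : (l : ℝ) * pr K ≤ x <;> simp [a, b]

/-- the diagonal terms -/
lemma N1_diag {Q : Finset ℕ} (hQ : ∀ l ∈ Q, 7 ≤ l) (x : ℝ) :
    ∑ K ∈ Sub Q x, hh K * ∑ l ∈ Q.filter (fun l : ℕ => l ∈ K ∧ (l : ℝ) * pr K ≤ x), N1_h l * Real.log l ≤
      (∑ l ∈ Q, N1_h l ^ 2 * Real.log l) * Gs Q x := by
  classical
  have h1 : ∑ K ∈ Sub Q x, hh K * ∑ l ∈ Q.filter (fun l : ℕ => l ∈ K ∧ (l : ℝ) * pr K ≤ x), N1_h l * Real.log l ≤
      ∑ K ∈ Sub Q x, ∑ l ∈ Q, (if l ∈ K then hh K * (N1_h l * Real.log l) else 0) := by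
    apply Finset.sum_le_sum
    intro K hK
    have hKQ := N1_Sub_sub hK
    rw [Finset.mul_sum, Finset.sum_filter]
    apply Finset.sum_le_sum
    intro l hl
    have h7 := hQ l hl
    have hp : 0 ≤ hh K * (N1_h l * Real.log l) := by
      apply mul_nonneg (N1_hh_pos hQ hKQ).le
      apply mul_nonneg (N1_h_pos h7).le
      apply Real.log_nonneg
      exact_mod_cast (le_trans (by norm_num) h7)
    by_cases a : l ∈ K
    · by_cases b : (l : ℝ) * pr K ≤ x
      · simp [a, b]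
      · simp [a, b, hp]
    · simp [a]
  refine h1.trans ?_
  rw [Finset.sum_comm, Finset.sum_mul]
  apply Finset.sum_le_sum
  intro l hl
  have h7 := hQ l hl
  rw [← Finset.sum_filter, ← Finset.sum_mul, N1_EX hQ x l hl]
  have h2 : ∑ K ∈ (Sub Q x).filter (fun K => l ∉ K ∧ (l : ℝ) * pr K ≤ x), hh K ≤ Gs Q x := by
    unfold Gs
    apply Finset.sum_le_sum_of_subset_of_nonneg (Finset.filter_subset _ _)
    intro K hK _
    exact (N1_hh_pos hQ (N1_Sub_sub hK)).le
  have h3 : 0 ≤ N1_h l ^ 2 * Real.log l := by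
    apply mul_nonneg (sq_nonneg _)
    apply Real.log_nonneg
    exact_mod_cast (le_trans (by norm_num) h7)
  calc N1_h l * (∑ K ∈ (Sub Q x).filter (fun K => l ∉ K ∧ (l : ℝ) * pr K ≤ x), hh K) *
        (N1_h l * Real.log l) = (N1_h l ^ 2 * Real.log l) *
          ∑ K ∈ (Sub Q x).filter (fun K => l ∉ K ∧ (l : ℝ) * pr K ≤ x), hh K := by ring
    _ ≤ _ := mul_le_mul_of_nonneg_left h2 h3

/-- key inequality, abstract form -/
lemma N1_key {Q : Finset ℕ} (hQ : ∀ l ∈ Q, 7 ≤ l) (x z E c : ℝ) (hx1 : 1 ≤ x) (hxz : x ≤ z)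
    (hE : ∀ y : ℝ, 1 ≤ y → y ≤ z → |∑ l ∈ Q.filter (fun l : ℕ => (l : ℝ) ≤ y), N1_h l * Real.log l - Real.log y| ≤ E)
    (hc : ∑ l ∈ Q, N1_h l ^ 2 * Real.log l ≤ c) :
    |Gs Q x * Real.log x - 2 * ∑ K ∈ Sub Q x, hh K * (Real.log x - Real.log (pr K))| ≤
      (E + c) * Gs Q x := by
  classical
  have hG0 : 0 ≤ Gs Q x := by
    unfold Gs
    exact Finset.sum_nonneg fun K hK => (N1_hh_pos hQ (N1_Sub_sub hK)).le
  have e1 : Gs Q x * Real.log x - ∑ K ∈ Sub Q x, hh K * (Real.log x - Real.log (pr K)) =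
      ∑ K ∈ Sub Q x, hh K * Real.log (pr K) := by
    unfold Gs
    rw [Finset.sum_mul, ← Finset.sum_sub_distrib]
    apply Finset.sum_congr rfl
    intro K _
    ring
  have e2 := N1_logsum hQ x
  have e3 := N1_diag hQ x
  set D := ∑ K ∈ Sub Q x, hh K * ∑ l ∈ Q.filter (fun l : ℕ => l ∈ K ∧ (l : ℝ) * pr K ≤ x), N1_h l * Real.log l with hD
  have hD0 : 0 ≤ D := by
    apply Finset.sum_nonneg
    intro K hK
    apply mul_nonneg (N1_hh_pos hQ (N1_Sub_sub hK)).le
    apply Finset.sum_nonneg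
    intro l hl
    have h7 := hQ l (mem_filter.mp hl).1
    apply mul_nonneg (N1_h_pos h7).le
    apply Real.log_nonneg
    exact_mod_cast (le_trans (by norm_num) h7)
  have hDc : D ≤ c * Gs Q x := e3.trans (mul_le_mul_of_nonneg_right hc hG0)
  have e4 : |∑ K ∈ Sub Q x, hh K * ∑ l ∈ Q.filter (fun l : ℕ => (l : ℝ) * pr K ≤ x), N1_h l * Real.log l -
      ∑ K ∈ Sub Q x, hh K * (Real.log x - Real.log (pr K))| ≤ E * Gs Q x := by
    rw [← Finset.sum_sub_distrib]
    refine (Finset.abs_sum_le_sum_abs _ _).trans ?_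
    unfold Gs
    rw [Finset.mul_sum]
    apply Finset.sum_le_sum
    intro K hK
    have hKQ := N1_Sub_sub hK
    have hp1 : (1 : ℝ) ≤ pr K := by exact_mod_cast N1_pr_pos hQ hKQ
    have hpx : (pr K : ℝ) ≤ x := by
      unfold Sub at hK
      exact (mem_filter.mp hK).2
    have hp0 : (0 : ℝ) < pr K := by linarith
    have hy1 : 1 ≤ x / pr K := by rw [le_div_iff₀ hp0]; linarith
    have hyz : x / pr K ≤ z := by
      rw [div_le_iff₀ hp0]
      nlinarith
    have h := hE (x / pr K) hy1 hyz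
    have hset : Q.filter (fun l : ℕ => (l : ℝ) ≤ x / pr K) = Q.filter (fun l : ℕ => (l : ℝ) * pr K ≤ x) := by
      apply Finset.filter_congr
      intro l _
      rw [le_div_iff₀ hp0]
    rw [hset, Real.log_div (by linarith) (by linarith)] at h
    rw [← mul_sub, abs_mul, abs_of_pos (N1_hh_pos hQ hKQ), mul_comm E]
    exact mul_le_mul_of_nonneg_left h (N1_hh_pos hQ hKQ).le
  set T := ∑ K ∈ Sub Q x, hh K * (Real.log x - Real.log (pr K)) with hT
  have e5 : Gs Q x * Real.log x - 2 * T =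
      (∑ K ∈ Sub Q x, hh K * ∑ l ∈ Q.filter (fun l : ℕ => (l : ℝ) * pr K ≤ x), N1_h l * Real.log l - T) - D := by
    linarith
  rw [e5]
  rw [abs_le] at e4 ⊢
  constructor <;> nlinarith [e4.1, e4.2]

/-! ### calculus -/

lemma N1_deriv_max (c u : ℝ) :
    HasDerivWithinAt (fun v : ℝ => max (v - c) 0) (if c ≤ u then 1 else 0) (Set.Ici u) u := by
  by_cases h : c ≤ u
  · rw [if_pos h]
    have h1 : HasDerivWithinAt (fun v : ℝ => v - c) 1 (Set.Ici u) u :=
      ((hasDerivAt_id u).sub_const c).hasDerivWithinAt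
    refine h1.congr ?_ ?_
    · intro v hv
      have : u ≤ v := hv
      exact max_eq_left (by linarith)
    · exact max_eq_left (by linarith)
  · rw [if_neg h]
    push_neg at h
    have h1 : HasDerivAt (fun _ : ℝ => (0 : ℝ)) 0 u := hasDerivAt_const u 0
    have h2 : HasDerivAt (fun v : ℝ => max (v - c) 0) 0 u := by
      refine h1.congr_of_eventuallyEq ?_
      filter_upwards [Iio_mem_nhds h] with v hv
      have : v < c := hv
      exact max_eq_right (by linarith)
    exact h2.hasDerivWithinAt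

noncomputable def N1_t (Q : Finset ℕ) (u : ℝ) : ℝ :=
  ∑ K ∈ Q.powerset, hh K * max (u - Real.log (pr K)) 0

noncomputable def N1_g (Q : Finset ℕ) (u : ℝ) : ℝ :=
  ∑ K ∈ Q.powerset, hh K * (if Real.log (pr K) ≤ u then 1 else 0)

lemma N1_t_deriv (Q : Finset ℕ) (u : ℝ) : HasDerivWithinAt (N1_t Q) (N1_g Q u) (Set.Ici u) u := by
  unfold N1_g
  have h : HasDerivWithinAt (fun v => ∑ K ∈ Q.powerset, hh K * max (v - Real.log (pr K)) 0)
      (∑ K ∈ Q.powerset, hh K * (if Real.log (pr K) ≤ u then 1 else 0)) (Set.Ici u) u := by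
    apply HasDerivWithinAt.fun_sum
    intro K _
    exact (N1_deriv_max (Real.log (pr K)) u).const_mul (hh K)
  exact h

lemma N1_t_cont (Q : Finset ℕ) : Continuous (N1_t Q) := by
  unfold N1_t
  fun_prop

lemma N1_g_eq {Q : Finset ℕ} (hQ : ∀ l ∈ Q, 7 ≤ l) (x : ℝ) (hx : 1 ≤ x) :
    N1_g Q (Real.log x) = Gs Q x := by
  unfold N1_g Gs Sub
  rw [Finset.sum_filter]
  apply Finset.sum_congr rfl
  intro K hK
  have hKQ := mem_powerset.mp hK
  have hp1 : (1 : ℝ) ≤ pr K := by exact_mod_cast N1_pr_pos hQ hKQ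
  have : (Real.log (pr K) ≤ Real.log x) ↔ ((pr K : ℝ) ≤ x) :=
    Real.log_le_log_iff (by linarith) (by linarith)
  by_cases h : (pr K : ℝ) ≤ x
  · simp [h, this]
  · simp [h, this]

lemma N1_t_eq {Q : Finset ℕ} (hQ : ∀ l ∈ Q, 7 ≤ l) (x : ℝ) (hx : 1 ≤ x) :
    N1_t Q (Real.log x) = ∑ K ∈ Sub Q x, hh K * (Real.log x - Real.log (pr K)) := by
  unfold N1_t Sub
  rw [Finset.sum_filter]
  apply Finset.sum_congr rfl
  intro K hK
  have hKQ := mem_powerset.mp hK
  have hp1 : (1 : ℝ) ≤ pr K := by exact_mod_cast N1_pr_pos hQ hKQ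
  have : (Real.log (pr K) ≤ Real.log x) ↔ ((pr K : ℝ) ≤ x) :=
    Real.log_le_log_iff (by linarith) (by linarith)
  by_cases h : (pr K : ℝ) ≤ x
  · rw [if_pos h, max_eq_left (by linarith [this.mpr h])]
  · rw [if_neg h]
    have h' : Real.log x < Real.log (pr K) := by
      by_contra hcon
      push_neg at hcon
      exact h (this.mp hcon)
    rw [max_eq_right (by linarith), mul_zero]

/-- `t(u)/(u+E)^2` is nondecreasing -/
lemma N1_mono_up (Q : Finset ℕ) (E U : ℝ) (hE : 0 < E)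
    (hk : ∀ u : ℝ, 0 ≤ u → u ≤ U → 2 * N1_t Q u ≤ (u + E) * N1_g Q u) (u : ℝ) (hu : 0 ≤ u) (huU : u ≤ U) :
    N1_t Q u / (u + E) ^ 2 ≤ N1_t Q U / (U + E) ^ 2 := by
  have h := image_le_of_deriv_right_le_deriv_boundary (f := fun _ => N1_t Q u / (u + E) ^ 2)
    (f' := fun _ => 0) (a := u) (b := U) (B := fun v => N1_t Q v / (v + E) ^ 2)
    (B' := fun v => (N1_g Q v * (v + E) ^ 2 - N1_t Q v * (2 * (v + E))) / ((v + E) ^ 2) ^ 2)
    continuousOn_const (fun x _ => hasDerivWithinAt_const _ _ _) le_rfl ?_ ?_ ?_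
    (Set.right_mem_Icc.mpr huU)
  · exact h
  · apply ContinuousOn.div (N1_t_cont Q).continuousOn (by fun_prop)
    intro v hv
    have : 0 < v + E := by linarith [hv.1]
    positivity
  · intro v hv
    have hv0 : v + E ≠ 0 := by
      have : 0 < v + E := by linarith [hv.1]
      exact this.ne'
    have h1 := N1_t_deriv Q v
    have h2 : HasDerivWithinAt (fun v : ℝ => (v + E) ^ 2) (2 * (v + E)) (Set.Ici v) v := by
      have : HasDerivAt (fun v : ℝ => (v + E) ^ 2) (2 * (v + E)) v := by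
        have h3 := ((hasDerivAt_id v).add_const E).fun_pow 2
        simpa using h3
      exact this.hasDerivWithinAt
    exact h1.div h2 (pow_ne_zero 2 hv0)
  · intro v hv
    have hv0 : 0 < v + E := by linarith [hv.1]
    apply div_nonneg _ (by positivity)
    have := hk v (hu.trans hv.1) hv.2.le
    nlinarith

/-- `t(u)/(u-E)^2` is nonincreasing on `u > E` -/
lemma N1_mono_down (Q : Finset ℕ) (E U : ℝ) (hE : 0 < E)
    (hk : ∀ u : ℝ, 0 ≤ u → u ≤ U → (u - E) * N1_g Q u ≤ 2 * N1_t Q u) (u : ℝ) (hu : E < u) (huU : u ≤ U) :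
    N1_t Q U / (U - E) ^ 2 ≤ N1_t Q u / (u - E) ^ 2 := by
  have h := image_le_of_deriv_right_le_deriv_boundary (B := fun _ => N1_t Q u / (u - E) ^ 2)
    (B' := fun _ => 0) (a := u) (b := U) (f := fun v => N1_t Q v / (v - E) ^ 2)
    (f' := fun v => (N1_g Q v * (v - E) ^ 2 - N1_t Q v * (2 * (v - E))) / ((v - E) ^ 2) ^ 2)
    ?_ ?_ le_rfl continuousOn_const (fun x _ => hasDerivWithinAt_const _ _ _) ?_
    (Set.right_mem_Icc.mpr huU)
  · exact h
  · apply ContinuousOn.div (N1_t_cont Q).continuousOn (by fun_prop)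
    intro v hv
    have : 0 < v - E := by linarith [hv.1]
    positivity
  · intro v hv
    have hv0 : v - E ≠ 0 := by
      have : 0 < v - E := by linarith [hv.1]
      exact this.ne'
    have h1 := N1_t_deriv Q v
    have h2 : HasDerivWithinAt (fun v : ℝ => (v - E) ^ 2) (2 * (v - E)) (Set.Ici v) v := by
      have : HasDerivAt (fun v : ℝ => (v - E) ^ 2) (2 * (v - E)) v := by
        have h3 := ((hasDerivAt_id v).sub_const E).fun_pow 2
        simpa using h3
      exact this.hasDerivWithinAt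
    exact h1.div h2 (pow_ne_zero 2 hv0)
  · intro v hv
    have hv0 : 0 < v - E := by linarith [hv.1]
    apply div_nonpos_of_nonpos_of_nonneg _ (by positivity)
    have := hk v (by linarith [hv.1]) hv.2.le
    nlinarith

/-! ### numerical sums -/

noncomputable def N1_Z : ℝ := ∑' n : ℕ, 1 / (n : ℝ) ^ (3 / 2 : ℝ)

lemma N1_bound {l : ℕ} (h7 : 7 ≤ l) (a : ℝ) (ha : a ≤ 4 * (49 / 25) / (l : ℝ) ^ 2) :
    a * Real.log l ≤ 16 * (1 / (l : ℝ) ^ (3 / 2 : ℝ)) := by
  have hl : (7 : ℝ) ≤ l := by exact_mod_cast h7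
  have hl0 : (0 : ℝ) < l := by linarith
  have hs : 0 < √(l : ℝ) := Real.sqrt_pos.mpr hl0
  have hlog : Real.log l ≤ 2 * √(l : ℝ) := by
    have h1 := Real.log_le_sub_one_of_pos hs
    rw [Real.log_sqrt hl0.le] at h1
    linarith
  have hlog0 : 0 ≤ Real.log l := Real.log_nonneg (by linarith)
  have h3 : (l : ℝ) ^ (3 / 2 : ℝ) = l * √(l : ℝ) := by
    rw [show (3 / 2 : ℝ) = 1 + 1 / 2 by norm_num, Real.rpow_add hl0, Real.rpow_one, ← Real.sqrt_eq_rpow]
  have hsq : √(l : ℝ) * √(l : ℝ) = l := Real.mul_self_sqrt hl0.le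
  rw [h3]
  have h4 : a * Real.log l ≤ 4 * (49 / 25) / (l : ℝ) ^ 2 * (2 * √(l : ℝ)) := by
    calc a * Real.log l ≤ 4 * (49 / 25) / (l : ℝ) ^ 2 * Real.log l := mul_le_mul_of_nonneg_right ha hlog0
      _ ≤ _ := mul_le_mul_of_nonneg_left hlog (by positivity)
  refine h4.trans ?_
  have h5 : 4 * (49 / 25) / (l : ℝ) ^ 2 * (2 * √(l : ℝ)) = (392 / 25) * (1 / (l * √(l : ℝ))) := by
    have : (l : ℝ) ^ 2 = l * (√(l : ℝ) * √(l : ℝ)) := by rw [hsq]; ring
    rw [this]
    field_simp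
    ring
  rw [h5]
  apply mul_le_mul_of_nonneg_right (by norm_num)
  positivity

lemma N1_sum_bound (Q : Finset ℕ) (hQ : ∀ l ∈ Q, 7 ≤ l) (f : ℕ → ℝ)
    (hf : ∀ l : ℕ, 7 ≤ l → f l ≤ 4 * (49 / 25) / (l : ℝ) ^ 2) :
    ∑ l ∈ Q, f l * Real.log l ≤ 16 * N1_Z := by
  have h1 : ∑ l ∈ Q, f l * Real.log l ≤ ∑ l ∈ Q, 16 * (1 / (l : ℝ) ^ (3 / 2 : ℝ)) :=
    Finset.sum_le_sum fun l hl => N1_bound (hQ l hl) _ (hf l (hQ l hl))
  refine h1.trans ?_
  rw [← Finset.mul_sum]
  apply mul_le_mul_of_nonneg_left _ (by norm_num)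
  unfold N1_Z
  apply Summable.sum_le_tsum
  · intro n _
    positivity
  · exact Real.summable_one_div_nat_rpow.mpr (by norm_num)

lemma N1_Z_nonneg : 0 ≤ N1_Z := tsum_nonneg fun n => by positivity

/-- Mertens for `Q` -/
lemma N1_mertens {C₁ : ℝ} (hG1 : ∀ x : ℝ, 1 ≤ x →
    |∑ l ∈ (Icc 1 ⌊x⌋₊).filter (fun l => l.Prime ∧ (l % 8 = 1 ∨ l % 8 = 7)), 2 * Real.log l / l
      - Real.log x| ≤ C₁) (w : ℕ) (z : ℝ) (hw : 2 ≤ w) (y : ℝ) (hy1 : 1 ≤ y) (hyz : y ≤ z) :
    |∑ l ∈ (Qs w z).filter (fun l : ℕ => (l : ℝ) ≤ y), N1_h l * Real.log l - Real.log y| ≤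
      Real.log w + 2 * C₁ + 16 * N1_Z := by
  classical
  have hwr : (2 : ℝ) ≤ w := by exact_mod_cast hw
  have hC₁ : 0 ≤ C₁ := (abs_nonneg _).trans (hG1 1 le_rfl)
  have hZ := N1_Z_nonneg
  set R := (Qs w z).filter (fun l : ℕ => (l : ℝ) ≤ y) with hR
  have hR7 : ∀ l ∈ R, 7 ≤ l := fun l hl => N1_Q7 hw (mem_filter.mp hl).1
  -- split h l = 2/l + rest
  have e1 : ∑ l ∈ R, N1_h l * Real.log l =
      ∑ l ∈ R, 2 * Real.log l / l + ∑ l ∈ R, (N1_h l - 2 / l) * Real.log l := by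
    rw [← Finset.sum_add_distrib]
    apply Finset.sum_congr rfl
    intro l _
    ring
  have e2 : ∑ l ∈ R, (N1_h l - 2 / l) * Real.log l ≤ 16 * N1_Z := by
    apply N1_sum_bound R hR7
    intro l h7
    have hl : (7 : ℝ) ≤ l := by exact_mod_cast h7
    have hl0 : (0 : ℝ) < l := by linarith
    have hl2 : (0 : ℝ) < (l : ℝ) - 2 := by linarith
    unfold N1_h
    rw [div_sub_div _ _ hl2.ne' hl0.ne', div_le_div_iff₀ (by positivity) (by positivity)]
    nlinarith [mul_pos hl0 hl0]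
  have e2' : 0 ≤ ∑ l ∈ R, (N1_h l - 2 / l) * Real.log l := by
    apply Finset.sum_nonneg
    intro l hlR
    have h7 := hR7 l hlR
    have hl : (7 : ℝ) ≤ l := by exact_mod_cast h7
    apply mul_nonneg
    · unfold N1_h
      rw [sub_nonneg]
      apply div_le_div_of_nonneg_left (by norm_num) (by linarith) (by linarith)
    · exact Real.log_nonneg (by linarith)
  have e3 : |∑ l ∈ R, 2 * Real.log l / l - Real.log y| ≤ Real.log w + 2 * C₁ := by
    by_cases hyw : y < w
    · have hRe : R = ∅ := by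
        rw [Finset.eq_empty_iff_forall_notMem]
        intro l hl
        rw [hR, mem_filter] at hl
        have h1 : w < l := by
          have := hl.1
          unfold Qs at this
          exact (mem_filter.mp this).2.2.1
        have h2 : (w : ℝ) < l := by exact_mod_cast h1
        linarith [hl.2]
      rw [hRe, Finset.sum_empty, zero_sub, abs_neg, abs_of_nonneg (Real.log_nonneg hy1)]
      have : Real.log y ≤ Real.log w := Real.log_le_log (by linarith) hyw.le
      linarith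
    · push_neg at hyw
      have hfl : w ≤ ⌊y⌋₊ := Nat.le_floor hyw
      have hsplit : (Icc 1 ⌊y⌋₊).filter (fun l => l.Prime ∧ (l % 8 = 1 ∨ l % 8 = 7)) =
          (Icc 1 ⌊(w : ℝ)⌋₊).filter (fun l => l.Prime ∧ (l % 8 = 1 ∨ l % 8 = 7)) ∪ R := by
        ext l
        rw [hR]
        unfold Qs
        simp only [mem_filter, mem_Icc, mem_union, Nat.floor_natCast]
        constructor
        · rintro ⟨⟨h1, h2⟩, h3, h4⟩
          by_cases hlw : l ≤ w
          · left; exact ⟨⟨h1, hlw⟩, h3, h4⟩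
          · right
            have hly : (l : ℝ) ≤ y := (Nat.le_floor_iff (by linarith)).mp h2
            refine ⟨⟨⟨h1, Nat.le_floor (hly.trans hyz)⟩, h3, by omega, h4⟩, hly⟩
        · rintro (⟨⟨h1, h2⟩, h3, h4⟩ | ⟨⟨⟨h1, h2⟩, h3, h4, h5⟩, h6⟩)
          · exact ⟨⟨h1, h2.trans hfl⟩, h3, h4⟩
          · exact ⟨⟨h1, Nat.le_floor h6⟩, h3, h5⟩
      have hdisj : Disjoint ((Icc 1 ⌊(w : ℝ)⌋₊).filter (fun l => l.Prime ∧ (l % 8 = 1 ∨ l % 8 = 7))) R := by
        rw [Finset.disjoint_left]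
        intro l h1 h2
        rw [hR] at h2
        unfold Qs at h2
        simp only [mem_filter, mem_Icc, Nat.floor_natCast] at h1 h2
        omega
      have g1 := hG1 y hy1
      have g2 := hG1 w (by linarith)
      rw [hsplit, Finset.sum_union hdisj] at g1
      have hlw : 0 ≤ Real.log w := Real.log_nonneg (by linarith)
      rw [abs_le] at g1 g2 ⊢
      constructor <;> linarith [g1.1, g1.2, g2.1, g2.2]
  rw [e1]
  rw [abs_le] at e3 ⊢
  constructor <;> linarith [e3.1, e3.2]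

theorem N1 (h1 : G1_stmt) (h3 : G3_stmt) : N1_stmt := by
  classical
  obtain ⟨C₁, hC₁, hG1⟩ := h1
  obtain ⟨C₃, hC₃, hG3⟩ := h3
  have hZ := N1_Z_nonneg
  have hl2 : 0 < Real.log 2 := Real.log_pos (by norm_num)
  set C' : ℝ := 1 + (2 * C₁ + 32 * N1_Z) / Real.log 2 with hC'
  have hC'1 : 1 ≤ C' := by
    have : 0 ≤ (2 * C₁ + 32 * N1_Z) / Real.log 2 := by positivity
    linarith
  refine ⟨9 * C' + 2 * (C₃ + 1) * C', by nlinarith, ?_⟩
  intro w z hw hwz
  have hwr : (2 : ℝ) ≤ w := by exact_mod_cast hw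
  have hlw : Real.log 2 ≤ Real.log w := Real.log_le_log (by norm_num) hwr
  have hlw0 : 0 < Real.log w := lt_of_lt_of_le hl2 hlw
  have hz1 : 1 ≤ z := by linarith
  have hU0 : 0 < Real.log z := lt_of_lt_of_le hlw0 (Real.log_le_log (by linarith) hwz)
  set Q := Qs w z with hQdef
  have hQ7 : ∀ l ∈ Q, 7 ≤ l := fun l hl => N1_Q7 hw hl
  set E : ℝ := C' * Real.log w with hEdef
  have hE0 : 0 < E := mul_pos (by linarith) hlw0
  have hEE : Real.log w + 2 * C₁ + 16 * N1_Z + 16 * N1_Z ≤ E := by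
    have h4 : (2 * C₁ + 32 * N1_Z) ≤ (2 * C₁ + 32 * N1_Z) / Real.log 2 * Real.log w := by
      rw [div_mul_eq_mul_div, le_div_iff₀ hl2]
      exact mul_le_mul_of_nonneg_left hlw (by positivity)
    have h5 : E = Real.log w + (2 * C₁ + 32 * N1_Z) / Real.log 2 * Real.log w := by
      rw [hEdef, hC']; ring
    linarith
  have hsq : ∑ l ∈ Q, N1_h l ^ 2 * Real.log l ≤ 16 * N1_Z := by
    apply N1_sum_bound Q hQ7
    intro l h7
    have hl : (7 : ℝ) ≤ l := by exact_mod_cast h7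
    have hl0 : (0 : ℝ) < l := by linarith
    have hl2 : (0 : ℝ) < (l : ℝ) - 2 := by linarith
    unfold N1_h
    rw [div_pow, div_le_div_iff₀ (by positivity) (by positivity)]
    nlinarith [mul_pos hl0 hl0]
  have hG0 : ∀ x : ℝ, 0 ≤ Gs Q x := by
    intro x
    unfold Gs
    exact Finset.sum_nonneg fun K hK => (N1_hh_pos hQ7 (N1_Sub_sub hK)).le
  -- key inequality in the variable u
  have key : ∀ u : ℝ, 0 ≤ u → u ≤ Real.log z → |N1_g Q u * u - 2 * N1_t Q u| ≤ E * N1_g Q u := by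
    intro u hu0 huU
    have hx1 : 1 ≤ Real.exp u := Real.one_le_exp hu0
    have hxz : Real.exp u ≤ z := by
      rw [← Real.exp_log (by linarith : 0 < z)]
      exact Real.exp_le_exp.mpr huU
    have h := N1_key hQ7 (Real.exp u) z _ _ hx1 hxz
      (fun y hy1 hyz => N1_mertens hG1 w z hw y hy1 hyz) hsq
    rw [← N1_g_eq hQ7 _ hx1, ← N1_t_eq hQ7 _ hx1, Real.log_exp] at h
    refine h.trans ?_
    have hg0 : 0 ≤ N1_g Q u := by
      have := N1_g_eq hQ7 (Real.exp u) hx1
      rw [Real.log_exp] at this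
      rw [this]
      exact hG0 _
    exact mul_le_mul_of_nonneg_right hEE hg0
  have kup : ∀ u : ℝ, 0 ≤ u → u ≤ Real.log z → 2 * N1_t Q u ≤ (u + E) * N1_g Q u := by
    intro u h1 h2
    have := (abs_le.mp (key u h1 h2)).1
    nlinarith
  have kdn : ∀ u : ℝ, 0 ≤ u → u ≤ Real.log z → (u - E) * N1_g Q u ≤ 2 * N1_t Q u := by
    intro u h1 h2
    have := (abs_le.mp (key u h1 h2)).2
    nlinarith
  have gmono : ∀ u v : ℝ, u ≤ v → N1_g Q u ≤ N1_g Q v := by
    intro u v huv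
    unfold N1_g
    apply Finset.sum_le_sum
    intro K hK
    apply mul_le_mul_of_nonneg_left _ (N1_hh_pos hQ7 (mem_powerset.mp hK)).le
    by_cases h : Real.log (pr K) ≤ u
    · rw [if_pos h, if_pos (h.trans huv)]
    · rw [if_neg h]
      split_ifs <;> norm_num
  have gnn : ∀ u : ℝ, 0 ≤ N1_g Q u := by
    intro u
    unfold N1_g
    apply Finset.sum_nonneg
    intro K hK
    apply mul_nonneg (N1_hh_pos hQ7 (mem_powerset.mp hK)).le
    split_ifs <;> norm_num
  by_cases hcase : 2 * E ≤ Real.log z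
  · -- main case
    set U := Real.log z with hUdef
    have htU : 0 < N1_t Q U := by
      unfold N1_t
      have h0 : (∅ : Finset ℕ) ∈ Q.powerset := Finset.empty_mem_powerset _
      refine lt_of_lt_of_le ?_ (Finset.single_le_sum (f := fun K => hh K * max (U - Real.log (pr K)) 0)
        (fun K hK => mul_nonneg (N1_hh_pos hQ7 (mem_powerset.mp hK)).le (le_max_right _ _)) h0)
      have e1 : hh ∅ = 1 := by simp [hh]
      have e2 : pr ∅ = 1 := by simp [pr]
      simp only [e1, e2, Nat.cast_one, Real.log_one, sub_zero, one_mul]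
      exact lt_of_lt_of_le hU0 (le_max_left _ _)
    set Lz : ℝ := 2 * N1_t Q U / U ^ 2 with hLz
    have hLz0 : 0 < Lz := by positivity
    have hUE : 0 < U - E := by linarith
    -- bounds on [2E, U]
    have hb : ∀ u : ℝ, 2 * E ≤ u → u ≤ U →
        N1_g Q u ≤ Lz * (u + 7 * E) ∧ Lz * (u - 3 * E) ≤ N1_g Q u := by
      intro u h2E huU
      have hu0 : 0 ≤ u := by linarith
      have m1 := N1_mono_up Q E U hE0 kup u hu0 huU
      have m2 := N1_mono_down Q E U hE0 kdn u (by linarith) huU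
      have a1 : N1_t Q U / (U + E) ^ 2 ≤ Lz / 2 := by
        rw [hLz]
        rw [show 2 * N1_t Q U / U ^ 2 / 2 = N1_t Q U / U ^ 2 by ring]
        apply div_le_div_of_nonneg_left htU.le (by positivity)
        apply pow_le_pow_left₀ hU0.le (by linarith)
      have a2 : Lz / 2 ≤ N1_t Q U / (U - E) ^ 2 := by
        rw [hLz]
        rw [show 2 * N1_t Q U / U ^ 2 / 2 = N1_t Q U / U ^ 2 by ring]
        apply div_le_div_of_nonneg_left htU.le (by positivity)
        apply pow_le_pow_left₀ hUE.le (by linarith)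
      have b1 : N1_t Q u ≤ Lz / 2 * (u + E) ^ 2 := by
        have := m1.trans a1
        rwa [div_le_iff₀ (by positivity)] at this
      have huE : 0 < u - E := by linarith
      have b2 : Lz / 2 * (u - E) ^ 2 ≤ N1_t Q u := by
        have := a2.trans m2
        rwa [le_div_iff₀ (by positivity)] at this
      have k1 := kdn u hu0 huU
      have k2 := kup u hu0 huU
      constructor
      · -- (u-E) g ≤ Lz (u+E)^2 ≤ Lz (u-E)(u+7E)
        have c1 : (u + E) ^ 2 ≤ (u - E) * (u + 7 * E) := by nlinarith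
        have c2 : (u - E) * N1_g Q u ≤ (u - E) * (Lz * (u + 7 * E)) := by
          calc (u - E) * N1_g Q u ≤ 2 * N1_t Q u := k1
            _ ≤ Lz * (u + E) ^ 2 := by linarith
            _ ≤ Lz * ((u - E) * (u + 7 * E)) := mul_le_mul_of_nonneg_left c1 hLz0.le
            _ = _ := by ring
        exact le_of_mul_le_mul_left c2 huE
      · have c1 : (u + E) * (u - 3 * E) ≤ (u - E) ^ 2 := by nlinarith
        have huE' : 0 < u + E := by linarith
        have c2 : (u + E) * (Lz * (u - 3 * E)) ≤ (u + E) * N1_g Q u := by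
          calc (u + E) * (Lz * (u - 3 * E)) = Lz * ((u + E) * (u - 3 * E)) := by ring
            _ ≤ Lz * (u - E) ^ 2 := mul_le_mul_of_nonneg_left c1 hLz0.le
            _ ≤ 2 * N1_t Q u := by linarith
            _ ≤ _ := k2
        exact le_of_mul_le_mul_left c2 huE'
    refine ⟨Lz, hLz0, ?_⟩
    intro x hx1 hxz
    rw [← N1_g_eq hQ7 x hx1]
    set u := Real.log x with hu
    have hu0 : 0 ≤ u := Real.log_nonneg hx1
    have huU : u ≤ U := Real.log_le_log (by linarith) hxz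
    have hfin : 9 * E * Lz ≤ (9 * C' + 2 * (C₃ + 1) * C') * Lz * Real.log w := by
      have : 9 * E * Lz = 9 * C' * Lz * Real.log w := by rw [hEdef]; ring
      rw [this]
      have : 0 ≤ 2 * (C₃ + 1) * C' * Lz * Real.log w := by positivity
      nlinarith
    refine le_trans ?_ hfin
    by_cases h2E : 2 * E ≤ u
    · obtain ⟨b1, b2⟩ := hb u h2E huU
      rw [abs_le]
      have : 0 < E * Lz := mul_pos hE0 hLz0
      constructor <;> nlinarith
    · push_neg at h2E
      obtain ⟨b1, -⟩ := hb (2 * E) le_rfl hcase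
      have b3 := gmono u (2 * E) h2E.le
      have b4 := gnn u
      have : 0 < E * Lz := mul_pos hE0 hLz0
      have b5 : 0 ≤ Lz * u := by positivity
      have b6 : Lz * u ≤ Lz * (2 * E) := mul_le_mul_of_nonneg_left h2E.le hLz0.le
      rw [abs_le]
      constructor <;> nlinarith
  · push_neg at hcase
    refine ⟨1 / Real.log w, by positivity, ?_⟩
    intro x hx1 hxz
    obtain ⟨g1, g2⟩ := hG3 w z x hw hwz hx1
    have hux : Real.log x ≤ Real.log z := Real.log_le_log (by linarith) hxz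
    have hux0 : 0 ≤ Real.log x := Real.log_nonneg hx1
    have e1 : (9 * C' + 2 * (C₃ + 1) * C') * (1 / Real.log w) * Real.log w =
        9 * C' + 2 * (C₃ + 1) * C' := by
      field_simp
    rw [e1]
    have e2 : Real.log z / Real.log w ≤ 2 * C' := by
      rw [div_le_iff₀ hlw0]
      have : 2 * E = 2 * C' * Real.log w := by rw [hEdef]; ring
      linarith
    have e3 : Gs Q x ≤ C₃ * (2 * C') := by
      calc Gs Q x ≤ C₃ * Real.log z / Real.log w := g2
        _ = C₃ * (Real.log z / Real.log w) := by ring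
        _ ≤ _ := mul_le_mul_of_nonneg_left e2 hC₃.le
    have e4 : 1 / Real.log w * Real.log x ≤ 2 * C' := by
      calc 1 / Real.log w * Real.log x = Real.log x / Real.log w := by ring
        _ ≤ Real.log z / Real.log w := div_le_div_of_nonneg_right hux hlw0.le
        _ ≤ _ := e2
    have e5 : 0 ≤ 1 / Real.log w * Real.log x := by positivity
    have e6 := hG0 x
    rw [abs_le]
    constructor <;> nlinarith

end GD
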